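import Pool.Agent.Helper34.CAR.GoalsB

/-!
# Project CAR (MP_d97caa_an), packet BLK: block diagonal matrices
-/

open scoped ComplexOrder ZeroAtInfty

namespace Pool.Agent.Helper60.CAR

open Pool.Agent.Helper39.Uct Pool.Agent.Helper34.CAR

/-- Lifting of a *-homomorphism through an injective one. -/
theorem exists_lift {A H M : Type} [NonUnitalCStarAlgebra A] [NonUnitalCStarAlgebra H]
    [NonUnitalCStarAlgebra M] (j : H →⋆ₙₐ[ℂ] M) (hj : Function.Injective j) (f : A →⋆ₙₐ[ℂ] M)
    (hf : ∀ a, f a ∈ Set.range j) : ∃ g : A →⋆ₙₐ[ℂ] H, ∀ a, j (g a) = f a := by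
  choose g hg using hf
  refine ⟨{ toFun := g
            map_smul' := fun c x => hj ?_
            map_zero' := hj ?_
            map_add' := fun x y => hj ?_
            map_mul' := fun x y => hj ?_
            map_star' := fun x => hj ?_ }, hg⟩
  · rw [map_smul, hg, hg, map_smul]; rfl
  · rw [hg, map_zero, map_zero]
  · rw [map_add, hg, hg, hg, map_add]
  · rw [map_mul, hg, hg, hg, map_mul]
  · rw [map_star, hg, hg, map_star]

section diag

variable {I B : Type} [Fintype I] [DecidableEq I] [CStarAlgebra B]

/-- Diagonal matrices. -/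
noncomputable def diag (d : I → B) : Mt I B := Mt.of fun i j => if i = j then d i else 0

theorem diag_apply (d : I → B) (i j : I) : diag d i j = if i = j then d i else 0 := rfl

theorem diag_mul (d : I → B) (a : Mt I B) (i j : I) : (diag d * a) i j = d i * a i j := by
  rw [Mt.mul_apply, Finset.sum_eq_single i]
  · rw [diag_apply, if_pos rfl]
  · intro k _ hk
    rw [diag_apply, if_neg (Ne.symm hk), zero_mul]
  · intro h
    exact absurd (Finset.mem_univ i) h

theorem mul_diag (d : I → B) (a : Mt I B) (i j : I) : (a * diag d) i j = a i j * d j := by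
  rw [Mt.mul_apply, Finset.sum_eq_single j]
  · rw [diag_apply, if_pos rfl]
  · intro k _ hk
    rw [diag_apply, if_neg hk, mul_zero]
  · intro h
    exact absurd (Finset.mem_univ j) h

theorem continuous_single (i j : I) : Continuous fun x : B => Mt.single i j x := by
  rw [Metric.continuous_iff]
  intro x ε hε
  refine ⟨ε, hε, fun y hy => lt_of_le_of_lt ?_ hy⟩
  rw [dist_eq_norm, dist_eq_norm]
  have h : (Mt.single i j y : Mt I B) - Mt.single i j x = Mt.single i j (y - x) := by
    ext a b
    rw [Mt.sub_apply, Mt.single_apply, Mt.single_apply, Mt.single_apply]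
    split_ifs
    · rfl
    · rw [sub_zero]
  rw [h]
  exact Mt.norm_single_le i j _

theorem separable_mt [TopologicalSpace.SeparableSpace B] :
    TopologicalSpace.SeparableSpace (Mt I B) := by
  have hc : Continuous fun f : I → I → B => (Mt.of f : Mt I B) := by
    have h : (fun f : I → I → B => (Mt.of f : Mt I B)) =
        fun f => ∑ i, ∑ j, Mt.single i j (f i j) := by
      funext f
      exact Mt.eq_sum_single (Mt.of f)
    rw [h]
    refine continuous_finset_sum _ fun i _ => continuous_finset_sum _ fun j _ => ?_
    exact (continuous_single i j).comp ((continuous_apply j).comp (continuous_apply i))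
  have hs : Function.Surjective fun f : I → I → B => (Mt.of f : Mt I B) := fun a =>
    ⟨fun i j => a i j, rfl⟩
  exact hs.denseRange.separableSpace hc

end diag

theorem separable_of_injective {H M : Type} [NonUnitalCStarAlgebra H] [NonUnitalCStarAlgebra M]
    [TopologicalSpace.SeparableSpace M] (j : H →⋆ₙₐ[ℂ] M) (hj : Function.Injective j) :
    TopologicalSpace.SeparableSpace H := by
  have h1 : Isometry j := NonUnitalStarAlgHom.isometry j hj
  haveI : SecondCountableTopology M := UniformSpace.secondCountable_of_separable M
  haveI : SecondCountableTopology H := h1.isEmbedding.secondCountableTopology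
  infer_instance

theorem blk (hPIC : S_PIC) : S_BLK := by
  classical
  intro 𝒞 h𝒞 B _ _ hB I _ _ wt H _ j hj hr
  have hMs : TopologicalSpace.SeparableSpace (Mt I B) := separable_mt
  have hHs : TopologicalSpace.SeparableSpace H := separable_of_injective j hj
  set T : Finset ℕ := Finset.univ.image wt with hT
  set n := T.card
  have hmem : ∀ i, wt i ∈ T := fun i => Finset.mem_image_of_mem _ (Finset.mem_univ i)
  let ρ : I → Fin n := fun i => T.equivFin ⟨wt i, hmem i⟩
  have hr0 : ∀ k : Fin n, ∃ i, wt i = (T.equivFin.symm k).1 := fun k => by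
    obtain ⟨i, -, hi⟩ := Finset.mem_image.1 (T.equivFin.symm k).2
    exact ⟨i, hi⟩
  choose r hrw using hr0
  have hwr : ∀ i, wt (r (ρ i)) = wt i := fun i => by
    rw [hrw]
    simp only [ρ, Equiv.symm_apply_apply]
  have hρr : ∀ k, ρ (r k) = k := fun k => by
    have : (⟨wt (r k), hmem (r k)⟩ : T) = T.equivFin.symm k := Subtype.ext (hrw k)
    simp only [ρ, this, Equiv.apply_symm_apply]
  have hρ : ∀ i k, wt i = wt k → ρ i = ρ k := fun i k h => by
    simp only [ρ, h]
  let dd : (Fin n → B) → I → B := fun x i => if r (ρ i) = i then x (ρ i) else 0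
  let D : (Fin n → B) →⋆ₙₐ[ℂ] Mt I B :=
    { toFun := fun x => diag (dd x)
      map_smul' := fun c x => by
        ext a b
        simp only [Mt.smul_apply, diag_apply, dd, Pi.smul_apply, MonoidHom.id_apply]
        split_ifs <;> simp
      map_zero' := by
        ext a b
        simp only [Mt.zero_apply, diag_apply, dd, Pi.zero_apply, ite_self]
      map_add' := fun x y => by
        ext a b
        simp only [Mt.add_apply, diag_apply, dd, Pi.add_apply]
        split_ifs <;> simp
      map_mul' := fun x y => by
        ext a b
        rw [diag_mul]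
        simp only [diag_apply, dd, Pi.mul_apply]
        split_ifs <;> simp
      map_star' := fun x => by
        ext a b
        rw [Mt.star_apply]
        simp only [diag_apply, dd, Pi.star_apply]
        by_cases hab : a = b
        · subst hab
          simp only [if_true]
          split_ifs <;> simp
        · rw [if_neg hab, if_neg (Ne.symm hab), star_zero] }
  have hD : ∀ x i k, D x i k = if i = k then dd x i else 0 := fun _ _ _ => rfl
  have hDD : ∀ x, D x = diag (dd x) := fun _ => rfl
  obtain ⟨φ, hφ⟩ := exists_lift j hj D fun x => by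
    rw [hr]
    intro a b hab
    rw [hD, if_neg]
    rintro rfl
    exact hab rfl
  have hφi : Function.Injective φ := by
    intro x y hxy
    funext k
    have h1 : D x = D y := by rw [← hφ, ← hφ, hxy]
    have h2 : D x (r k) (r k) = D y (r k) (r k) := by rw [h1]
    rw [hD, hD, if_pos rfl, if_pos rfl] at h2
    simpa only [dd, hρr, if_true] using h2
  have hHered : Hered φ := by
    refine ⟨hφi, fun x y a => ⟨fun k => x k * j a (r k) (r k) * y k, hj ?_⟩⟩
    rw [hφ, map_mul, map_mul, hφ, hφ, hDD x, hDD y]
    ext p q
    rw [mul_diag, diag_mul, hD]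
    have hja := (hr (j a)).1 ⟨a, rfl⟩
    simp only [dd]
    by_cases hpq : p = q
    · subst hpq
      rw [if_pos rfl]
      by_cases hp : r (ρ p) = p
      · rw [if_pos hp, if_pos hp, if_pos hp, hp]
      · rw [if_neg hp, if_neg hp, if_neg hp, zero_mul, zero_mul]
    · rw [if_neg hpq]
      by_cases hp : r (ρ p) = p
      · by_cases hq : r (ρ q) = q
        · have hw : wt p ≠ wt q := fun h => hpq (by rw [← hp, ← hq, hρ p q h])
          rw [hja p q hw, mul_zero, zero_mul]
        · rw [if_neg hq, mul_zero]
      · rw [if_neg hp, zero_mul, zero_mul]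
  have hFull : Full φ := by
    rw [Full, eq_top_iff]
    rintro h -
    apply Submodule.le_topologicalClosure
    -- preimages of the matrix units
    have hu : ∀ p q : I, wt p = wt q → ∃ u : H, j u = Mt.single p q 1 := fun p q hpq => by
      have := (hr (Mt.single p q 1)).2 fun x y hxy => by
        rw [Mt.single_apply, if_neg]
        rintro ⟨rfl, rfl⟩
        exact hxy hpq
      exact this
    choose! u hu using hu
    have hDs : ∀ (p : I) (b : B), D (Pi.single (ρ p) b) = Mt.single (r (ρ p)) (r (ρ p)) b := by
      intro p b
      ext x y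
      rw [hD, Mt.single_apply]
      simp only [dd]
      by_cases hxy : x = y
      · subst hxy
        rw [if_pos rfl]
        by_cases hx : r (ρ x) = x
        · rw [if_pos hx]
          by_cases hp : ρ x = ρ p
          · rw [hp, Pi.single_eq_same, if_pos]
            rw [← hp, hx]
            exact ⟨rfl, rfl⟩
          · rw [Pi.single_eq_of_ne hp, if_neg]
            rintro ⟨h1, -⟩
            exact hp (by rw [h1, hρr])
        · rw [if_neg hx, if_neg]
          rintro ⟨h1, -⟩
          exact hx (by rw [h1, hρr])
      · rw [if_neg hxy, if_neg]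
        rintro ⟨h1, h2⟩
        exact hxy (h1.trans h2.symm)
    have key : h = ∑ p, ∑ q, if wt p = wt q then
        u p (r (ρ p)) * φ (Pi.single (ρ p) (j h p q)) * u (r (ρ p)) q else 0 := by
      apply hj
      rw [map_sum]
      conv_lhs => rw [Mt.eq_sum_single (j h)]
      refine Finset.sum_congr rfl fun p _ => ?_
      rw [map_sum]
      refine Finset.sum_congr rfl fun q _ => ?_
      by_cases hpq : wt p = wt q
      · rw [if_pos hpq, map_mul, map_mul, hu p _ (hwr p).symm, hu _ q ((hwr p).trans hpq), hφ,
          hDs, Mt.single_mul_single, Mt.single_mul_single, one_mul, mul_one]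
      · rw [if_neg hpq, map_zero, (hr (j h)).1 ⟨h, rfl⟩ p q hpq]
        ext x y
        rw [Mt.single_apply, ite_self, Mt.zero_apply]
    rw [key]
    refine Submodule.sum_mem _ fun p _ => Submodule.sum_mem _ fun q _ => ?_
    split_ifs
    · exact Submodule.subset_span ⟨_, _, _, rfl⟩
    · exact Submodule.zero_mem _
  exact (h𝒞.hered (Fin n → B) H φ hHered hFull).1 (hPIC 𝒞 h𝒞 B hB n)

end Pool.Agent.Helper60.CAR
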